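import Mathlib
import Pool.Agent.helper78.CX.Defs

/-! # CX project, module SA: the base slice and the corner slices -/

open Set

namespace Pool.Agent.helper78.CX

theorem SA_LL_pos : (0 : ℝ) < LL := by unfold LL; norm_num

theorem SA_MM_pos (a : ℤ × ℤ) (i : Fin 3) : 0 < MM a i := by
  have hL := SA_LL_pos
  fin_cases i <;> simp only [MM, Fin.isValue, Fin.zero_eta, Fin.mk_one, Fin.reduceFinMk,
    Matrix.cons_val_zero, Matrix.cons_val_one, Matrix.cons_val] <;> positivity

theorem SA_sum_low (n : ℕ) (i : Fin 3) (y : Fin 3 → ℝ) :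
    ∑ l, NN n (.inl (i, false)) l * y l = y i := by
  simp [NN, Pi.single_apply]

theorem SA_sum_high (n : ℕ) (i : Fin 3) (y : Fin 3 → ℝ) :
    ∑ l, NN n (.inl (i, true)) l * y l = -y i := by
  simp [NN, Pi.single_apply]

/-- a nonnegative point on a lattice face of the base slice is the origin -/
theorem SA_zero_of_face (n : ℕ) (a : {a : ℤ × ℤ // a ∈ Box n}) (y : Fin 3 → ℝ)
    (hy : y ∈ Face (NN n) (cc n) (.inr a)) : y = 0 := by
  obtain ⟨h1, h2⟩ := hy
  have hnn : ∀ i, 0 ≤ y i := by
    intro i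
    have := h1 (.inl (i, false))
    rw [SA_sum_low] at this
    simpa [cc] using this
  have h3 : ∑ i, MM a.1 i * y i = 0 := by simpa [NN, cc] using h2
  have h4 : ∀ i ∈ Finset.univ, 0 ≤ MM a.1 i * y i :=
    fun i _ => mul_nonneg (SA_MM_pos _ _).le (hnn i)
  have h5 := (Finset.sum_eq_zero_iff_of_nonneg h4).1 h3
  funext i
  have := h5 i (Finset.mem_univ i)
  rcases mul_eq_zero.1 this with h | h
  · exact absurd h (SA_MM_pos _ _).ne'
  · exact h

theorem SA_not_nontrivial (n : ℕ) (a : {a : ℤ × ℤ // a ∈ Box n}) :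
    ¬ (Face (NN n) (cc n) (.inr a)).Nontrivial := by
  rintro ⟨x, hx, y, hy, hxy⟩
  exact hxy ((SA_zero_of_face n a x hx).trans (SA_zero_of_face n a y hy).symm)

theorem slice_base (n : ℕ) (col : Kap n → Fin 3 × Bool) (h : ColProp (NN n) (cc n) col) :
    (∀ p p' : Fin 3 × Bool, col (.inl p) = col (.inl p') → p = p') ∧
      ∀ a : {a : ℤ × ℤ // a ∈ Box n}, ∃ i : Fin 3, col (.inr a) = col (.inl (i, false)) := by
  obtain ⟨h1, h2⟩ := h
  constructor
  · have hsurj : Function.Surjective (fun p : Fin 3 × Bool => col (.inl p)) := by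
      intro A
      obtain ⟨k, hk, y, hy⟩ := h1 A
      obtain ⟨k', hk', -, hnt⟩ := h2 k y hy
      rcases k' with p | a
      · exact ⟨p, by simpa [hk] using hk'⟩
      · exact absurd hnt (SA_not_nontrivial n a)
    have hinj := Finite.injective_iff_surjective.2 hsurj
    intro p p' hpp
    exact hinj hpp
  · intro a
    have h0 : (0 : Fin 3 → ℝ) ∈ Face (NN n) (cc n) (.inr a) := by
      refine ⟨fun k' => ?_, ?_⟩
      · rcases k' with ⟨i, b⟩ | a'
        · cases b <;> simp [cc]
        · simp [cc]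
      · simp [cc]
    obtain ⟨k', hk', h0', hnt⟩ := h2 _ _ h0
    rcases k' with ⟨i, b⟩ | a'
    · cases b
      · exact ⟨i, hk'.symm⟩
      · exfalso
        have := h0'.2
        rw [SA_sum_high] at this
        simp [cc] at this
    · exact absurd hnt (SA_not_nontrivial n a')

/-- the tilt dominates at the special point -/
theorem SA_tilt (n : ℕ) (hn : 10 ≤ n) (q : Fin 4) (y : Fin 3 → ℝ) (h1 : ∀ i, y i ≤ 1)
    (h2 : y (spax q) = -eta n) (h3 : 0 ≤ ∑ i, MM (sp n q) i * y i) : False := by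
  have hL := SA_LL_pos
  have hn4 : (0 : ℝ) < LL ^ (4 - (n : ℤ)) := by positivity
  have hlt : LL ^ (-(n : ℤ)) < LL ^ (4 - (n : ℤ)) := by
    apply zpow_lt_zpow_right₀
    · unfold LL; norm_num
    · omega
  have hn0 : (0 : ℝ) < LL ^ (-(n : ℤ)) := by positivity
  have hlt1 : LL ^ (-(n : ℤ)) < 1 := by
    have : LL ^ (-(n : ℤ)) < LL ^ (0 : ℤ) := by
      apply zpow_lt_zpow_right₀
      · unfold LL; norm_num
      · omega
    simpa using this
  have hinv : LL ^ ((n : ℤ) - 4) * LL ^ (4 - (n : ℤ)) = 1 := by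
    rw [← zpow_add₀ hL.ne']
    simp
  have e4 : (-(n : ℤ) + 4) = 4 - (n : ℤ) := by ring
  rw [Fin.sum_univ_three] at h3
  have y0 := h1 0
  have y1 := h1 1
  have y2 := h1 2
  fin_cases q
  · simp only [sp, spax, MM, eta, Fin.isValue, Fin.reduceFinMk, Matrix.cons_val, Fin.zero_eta,
      Matrix.cons_val_zero, Matrix.cons_val_one] at h2 h3
    rw [h2, e4] at h3
    nlinarith
  · simp only [sp, spax, MM, eta, Fin.isValue, Fin.reduceFinMk, Matrix.cons_val, Fin.mk_one,
      Matrix.cons_val_zero, Matrix.cons_val_one] at h2 h3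
    rw [h2, e4] at h3
    nlinarith
  · simp only [sp, spax, MM, eta, Fin.isValue, Fin.reduceFinMk, Matrix.cons_val,
      Matrix.cons_val_zero, Matrix.cons_val_one] at h2 h3
    rw [h2] at h3
    nlinarith
  · simp only [sp, spax, MM, eta, Fin.isValue, Fin.reduceFinMk, Matrix.cons_val,
      Matrix.cons_val_zero, Matrix.cons_val_one] at h2 h3
    rw [h2] at h3
    nlinarith

theorem SA_bounds (n : ℕ) (θ : ℝ) (q : Fin 4) (y : Fin 3 → ℝ)
    (hy : ∀ k', cc n k' + bet n θ (.inl q) k' ≤ ∑ i, NN n k' i * y i) :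
    (∀ i, y i ≤ 1) ∧ (∀ i, i ≠ spax q → 0 ≤ y i) ∧ -eta n ≤ y (spax q) := by
  refine ⟨fun i => ?_, fun i hi => ?_, ?_⟩
  · have := hy (.inl (i, true))
    rw [SA_sum_high] at this
    simp [cc, bet] at this
    linarith
  · have := hy (.inl (i, false))
    rw [SA_sum_low] at this
    simpa [cc, bet, hi] using this
  · have := hy (.inl (spax q, false))
    rw [SA_sum_low] at this
    simpa [cc, bet] using this

theorem SA_no_low (n : ℕ) (hn : 10 ≤ n) (θ : ℝ) (q : Fin 4) (y : Fin 3 → ℝ)
    (hy : ∀ k', cc n k' + bet n θ (.inl q) k' ≤ ∑ i, NN n k' i * y i)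
    (h : y (spax q) = -eta n) : False := by
  refine SA_tilt n hn q y (SA_bounds n θ q y hy).1 h ?_
  have := hy (.inr ⟨sp n q, sp_mem n hn q⟩)
  simpa [cc, bet, NN] using this

theorem slice_corner (n : ℕ) (hn : 10 ≤ n) (θ : ℝ) (q : Fin 4) (col : Kap n → Fin 3 × Bool)
    (hinj : ∀ p p' : Fin 3 × Bool, col (.inl p) = col (.inl p') → p = p')
    (h : ColProp (NN n) (fun k => cc n k + bet n θ (.inl q) k) col) :
    col (.inr ⟨sp n q, sp_mem n hn q⟩) = col (.inl (spax q, false)) := by
  obtain ⟨h1, -⟩ := h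
  obtain ⟨k, hk, y, hy1, hy2⟩ := h1 (col (.inl (spax q, false)))
  rcases k with p | a
  · exfalso
    have hp := hinj _ _ hk
    subst hp
    rw [SA_sum_low] at hy2
    refine SA_no_low n hn θ q y hy1 ?_
    simpa [cc, bet] using hy2
  · by_cases ha : a.1 = sp n q
    · rw [← hk]
      congr 2
      exact Subtype.ext ha.symm
    · exfalso
      obtain ⟨-, hb2, hb3⟩ := SA_bounds n θ q y hy1
      have h4 : ∑ i, MM a.1 i * y i = -(eta n * MM a.1 (spax q)) := by
        simpa [cc, bet, NN, ha] using hy2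
      refine SA_no_low n hn θ q y hy1 ?_
      have h5 : ∑ i, MM a.1 i * (y i + if i = spax q then eta n else 0) = 0 := by
        simp only [mul_add, Finset.sum_add_distrib, h4, mul_ite, mul_zero, Finset.sum_ite_eq',
          Finset.mem_univ, if_true]
        ring
      have h6 : ∀ i ∈ Finset.univ, 0 ≤ MM a.1 i * (y i + if i = spax q then eta n else 0) := by
        intro i _
        refine mul_nonneg (SA_MM_pos _ _).le ?_
        split_ifs with hi
        · subst hi; linarith
        · simpa using hb2 i hi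
      have h7 := (Finset.sum_eq_zero_iff_of_nonneg h6).1 h5 (spax q) (Finset.mem_univ _)
      rcases mul_eq_zero.1 h7 with h | h
      · exact absurd h (SA_MM_pos _ _).ne'
      · simp only [if_true] at h
        linarith

end Pool.Agent.helper78.CX
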