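import Mathlib
import Pool.Agent.helper78.CX.Defs
import Pool.Agent.helper23.CX.LC
import Pool.Agent.helper92.CX.CN

/-! # CX project, module SC: the gadget slices -/

open Set

namespace Pool.Agent.helper78.CX

theorem SC_sum_low (n : ℕ) (i : Fin 3) (y : Fin 3 → ℝ) :
    ∑ l, NN n (.inl (i, false)) l * y l = y i := by
  simp [NN, Pi.single_apply]

theorem SC_sum_high (n : ℕ) (i : Fin 3) (y : Fin 3 → ℝ) :
    ∑ l, NN n (.inl (i, true)) l * y l = -y i := by
  simp [NN, Pi.single_apply]

theorem SC_cw_mem (j : Fin 3) (w : Fin 4) : cw w ∈ XX j.castSucc := by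
  fin_cases j <;> fin_cases w <;> simp [cw, XX]

theorem SC_tq_mem (j i : Fin 3) : tq j i ∈ XX j.castSucc := by
  fin_cases j <;> fin_cases i <;> simp [tq, XX]

theorem SC_mem_XX (j : Fin 3) (x : ℤ × ℤ) (hx : x ∈ XX j.castSucc) :
    (∃ i, x = tq j i) ∨ ∃ w, x = cw w := by
  fin_cases j
  · simp [XX] at hx
    rcases hx with h | h | h | h | h | h | h
    · exact Or.inl ⟨0, by simp [tq, h]⟩
    · exact Or.inl ⟨1, by simp [tq, h]⟩
    · exact Or.inl ⟨2, by simp [tq, h]⟩
    · exact Or.inr ⟨0, by simp [cw, h]⟩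
    · exact Or.inr ⟨1, by simp [cw, h]⟩
    · exact Or.inr ⟨2, by simp [cw, h]⟩
    · exact Or.inr ⟨3, by simp [cw, h]⟩
  · simp [XX] at hx
    rcases hx with h | h | h | h | h | h | h
    · exact Or.inl ⟨0, by simp [tq, h]⟩
    · exact Or.inl ⟨1, by simp [tq, h]⟩
    · exact Or.inl ⟨2, by simp [tq, h]⟩
    · exact Or.inr ⟨0, by simp [cw, h]⟩
    · exact Or.inr ⟨1, by simp [cw, h]⟩
    · exact Or.inr ⟨2, by simp [cw, h]⟩
    · exact Or.inr ⟨3, by simp [cw, h]⟩
  · simp [XX] at hx
    rcases hx with h | h | h | h | h | h | h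
    · exact Or.inl ⟨0, by simp [tq, h]⟩
    · exact Or.inl ⟨1, by simp [tq, h]⟩
    · exact Or.inl ⟨2, by simp [tq, h]⟩
    · exact Or.inr ⟨0, by simp [cw, h]⟩
    · exact Or.inr ⟨1, by simp [cw, h]⟩
    · exact Or.inr ⟨2, by simp [cw, h]⟩
    · exact Or.inr ⟨3, by simp [cw, h]⟩

theorem slice_gadget (n : ℕ) (θ : ℝ) (hθ : 0 < θ) (j : Fin 3) (r : Fin 30 × Fin 30)
    (hz : ∀ t, Fits n j.castSucc r t → ∀ i, θ * zt r t i < 1) (col : Kap n → Fin 3 × Bool)
    (h : ColProp (NN n) (fun k => cc n k + bet n θ (.inr (.inr (j.castSucc, r))) k) col)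
    (t : ℤ × ℤ) (hf : Fits n j.castSucc r t) (w : Fin 4)
    (hw : bp r t + cw w ∈ Box n) (hq : ∀ i, bp r t + tq j i ∈ Box n) :
    ∃ i, col (.inr ⟨bp r t + cw w, hw⟩) = col (.inr ⟨bp r t + tq j i, hq i⟩) := by
  obtain ⟨-, h2⟩ := h
  set y : Fin 3 → ℝ := fun i => θ * zt r t i with hy
  have hsum : ∀ a : ℤ × ℤ, ∑ i, MM a i * y i = θ * ∑ i, MM a i * zt r t i := by
    intro a
    rw [Finset.mul_sum]
    exact Finset.sum_congr rfl fun i _ => by simp only [hy]; ring
  have hypos : ∀ i, 0 < y i := fun i => mul_pos hθ (zt_pos r t i)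
  have hylt : ∀ i, y i < 1 := fun i => hz t hf i
  have hbase : ∀ k', cc n k' + bet n θ (.inr (.inr (j.castSucc, r))) k' ≤ ∑ i, NN n k' i * y i := by
    intro k'
    rcases k' with ⟨i, b⟩ | a
    · cases b
      · rw [SC_sum_low]
        simpa [cc, bet] using (hypos i).le
      · rw [SC_sum_high]
        simpa [cc, bet] using (hylt i).le
    · have h3 := (off_le n j.castSucc r t hf a.1).1
      have h4 := mul_le_mul_of_nonneg_left h3 hθ.le
      simp only [cc, bet, NN, zero_add, hsum]
      exact h4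
  have hface : ∀ x (hx : x ∈ XX j.castSucc), y ∈ Face (NN n)
      (fun k => cc n k + bet n θ (.inr (.inr (j.castSucc, r))) k)
      (.inr ⟨bp r t + x, hf x hx⟩) := by
    intro x hx
    refine ⟨hbase, ?_⟩
    simp only [cc, bet, NN, zero_add, hsum, off_eq n j.castSucc r t x hx hf]
  obtain ⟨k', hk', hyk, hnt⟩ := h2 _ y (hface (cw w) (SC_cw_mem j w))
  rcases k' with ⟨i, b⟩ | a
  · exfalso
    have := hyk.2
    cases b
    · rw [SC_sum_low] at this
      simp [cc, bet] at this
      exact (hypos i).ne' this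
    · rw [SC_sum_high] at this
      simp [cc, bet] at this
      exact (hylt i).ne this
  · have heq : off n j.castSucc r a.1 = ∑ i, MM a.1 i * zt r t i := by
      have := hyk.2
      simp only [cc, bet, NN, zero_add, hsum] at this
      exact (mul_left_cancel₀ hθ.ne' this).symm
    obtain ⟨x, hx, hax⟩ := (off_le n j.castSucc r t hf a.1).2 heq
    rcases SC_mem_XX j x hx with ⟨i, rfl⟩ | ⟨w', rfl⟩
    · refine ⟨i, ?_⟩
      rw [← hk']
      congr 2
      exact Subtype.ext hax
    · exfalso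
      obtain ⟨u, hu, hne⟩ := hnt.exists_ne y
      apply hne
      have hua : ∑ i, MM (bp r t + cw w') i * (u i - y i) = 0 := by
        have h5 := hu.2
        have h6 := hyk.2
        simp only [cc, bet, NN, zero_add] at h5 h6
        rw [hax] at h5 h6
        simp only [mul_sub, Finset.sum_sub_distrib, h5, h6, sub_self]
      have hui : ∀ i, 0 ≤ ∑ l, MM (bp r t + tq j i) l * (u l - y l) := by
        intro i
        have h5 := hu.1 (.inr ⟨bp r t + tq j i, hq i⟩)
        have h6 := (hface (tq j i) (SC_tq_mem j i)).2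
        simp only [cc, bet, NN, zero_add] at h5 h6
        simp only [mul_sub, Finset.sum_sub_distrib]
        linarith
      obtain ⟨α, hα, hα2⟩ := cone_tri j w' (bp r t)
      have hsw : ∑ i, α i * ∑ l, MM (bp r t + tq j i) l * (u l - y l) = 0 := by
        rw [← hua]
        simp only [Finset.mul_sum, hα2, Finset.sum_mul]
        rw [Finset.sum_comm]
        exact Finset.sum_congr rfl fun l _ => Finset.sum_congr rfl fun i _ => by ring
      have hz0 : ∀ i, ∑ l, MM (bp r t + tq j i) l * (u l - y l) = 0 := by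
        intro i
        have := (Finset.sum_eq_zero_iff_of_nonneg
          (fun i _ => mul_nonneg (hα i).le (hui i))).1 hsw i (Finset.mem_univ _)
        exact (mul_eq_zero.1 this).resolve_left (hα i).ne'
      have := indep_tri j (bp r t) (fun l => u l - y l) hz0
      funext l
      have h7 := congrFun this l
      simp only [Pi.zero_apply] at h7
      linarith

end Pool.Agent.helper78.CX
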